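import Mathlib

/-!
Definitions and job statements for the plane case of Rado-type removability
(problem MP_375441_an).
-/

open MeasureTheory Set Filter Topology
open scoped ContDiff

namespace Pool.Agent.Y313.RA

/-- The partial derivatives of a function on the plane. -/
noncomputable def d1 (f : ℝ × ℝ → ℂ) : ℝ × ℝ → ℂ := fun x => fderiv ℝ f x (1, 0)
noncomputable def d2 (f : ℝ × ℝ → ℂ) : ℝ × ℝ → ℂ := fun x => fderiv ℝ f x (0, 1)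

/-- `D_j = (1/i) ∂_j`. -/
noncomputable def D1 (f : ℝ × ℝ → ℂ) : ℝ × ℝ → ℂ := fun x => -Complex.I * d1 f x
noncomputable def D2 (f : ℝ × ℝ → ℂ) : ℝ × ℝ → ℂ := fun x => -Complex.I * d2 f x

/-- `D^(j,k) = D_1^j D_2^k`. -/
noncomputable def Dm (j k : ℕ) (f : ℝ × ℝ → ℂ) : ℝ × ℝ → ℂ := D1^[j] (D2^[k] f)

/-- The formal transpose of `P = Σ_{j+k ≤ p} a_{jk} D^(j,k)`. -/
noncomputable def transpose (p : ℕ) (a : ℕ → ℕ → ℝ × ℝ → ℂ) (φ : ℝ × ℝ → ℂ) : ℝ × ℝ → ℂ :=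
  fun x => ∑ m ∈ Finset.range (p + 1), (-1 : ℂ) ^ m *
    ∑ j ∈ Finset.range (m + 1), Dm j (m - j) (fun y => a j (m - j) y * φ y) x

/-- Test functions with support in `V`. -/
def Test (V : Set (ℝ × ℝ)) (φ : ℝ × ℝ → ℂ) : Prop :=
  ContDiff ℝ ∞ φ ∧ HasCompactSupport φ ∧ tsupport φ ⊆ V

/-- The distribution `Pf` as a functional on test functions. -/
noncomputable def Pf (p : ℕ) (a : ℕ → ℕ → ℝ × ℝ → ℂ) (f φ : ℝ × ℝ → ℂ) : ℂ :=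
  ∫ x, f x * transpose p a φ x

/-- The functional vanishes on test functions with support in `V`. -/
def Null (T : (ℝ × ℝ → ℂ) → ℂ) (V : Set (ℝ × ℝ)) : Prop := ∀ φ, Test V φ → T φ = 0

/-- A first order distribution with continuous coefficients. -/
noncomputable def Tw (F0 F1 F2 φ : ℝ × ℝ → ℂ) : ℂ :=
  ∫ x, (F1 x * d1 φ x + F2 x * d2 φ x + F0 x * φ x)

/-- all derivatives of `f` of order `≤ m` vanish at `x` -/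
def Flat (m : ℕ) (f : ℝ × ℝ → ℂ) (x : ℝ × ℝ) : Prop := ∀ i ≤ m, iteratedFDeriv ℝ i f x = 0

/-- the polynomial `Σ_{j ≤ p} c_j(x) t^j` -/
noncomputable def Px (p : ℕ) (c : ℕ → ℝ × ℝ → ℂ) (x : ℝ × ℝ) : Polynomial ℂ :=
  ∑ j ∈ Finset.range (p + 1), Polynomial.C (c j x) * Polynomial.X ^ j

/-! ### Job statements -/

/-- RA-PU: smooth partition of unity. -/
def PUStm : Prop :=
  ∀ (T : (ℝ × ℝ → ℂ) → ℂ) (O : Set (ℝ × ℝ)), IsOpen O →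
    (∀ φ ψ, Test O φ → Test O ψ → T (fun x => φ x + ψ x) = T φ + T ψ) →
    (∀ x ∈ O, ∃ V, IsOpen V ∧ x ∈ V ∧ V ⊆ O ∧ Null T V) → Null T O

/-- RA-C1: a first order distribution that vanishes on smooth test functions
vanishes on `C^1` test functions. -/
def C1Stm : Prop :=
  ∀ (V : Set (ℝ × ℝ)) (F0 F1 F2 : ℝ × ℝ → ℂ), IsOpen V →
    ContinuousOn F0 V → ContinuousOn F1 V → ContinuousOn F2 V → Null (Tw F0 F1 F2) V →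
    ∀ ψ : ℝ × ℝ → ℂ, ContDiff ℝ 1 ψ → HasCompactSupport ψ → tsupport ψ ⊆ V →
      Tw F0 F1 F2 ψ = 0

/-- RA-HYP: a first order distribution with continuous coefficients cannot be
supported on a piece of a `C^1` curve. -/
def HypStm : Prop :=
  ∀ (V : Set (ℝ × ℝ)) (F0 F1 F2 : ℝ × ℝ → ℂ), IsOpen V →
    ContinuousOn F0 V → ContinuousOn F1 V → ContinuousOn F2 V →
    ∀ (S : Set (ℝ × ℝ)) (x0 : ℝ × ℝ) (r : ℝ × ℝ → ℝ), x0 ∈ V → IsOpen (V \ S) →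
      ContDiffOn ℝ 1 r V → (∀ x ∈ V ∩ S, r x = 0) → fderiv ℝ r x0 ≠ 0 →
      Null (Tw F0 F1 F2) (V \ S) →
      ∃ W, IsOpen W ∧ x0 ∈ W ∧ W ⊆ V ∧ Null (Tw F0 F1 F2) W

/-- RA-MOL: mollification of a weak solution of `∂_1 u - lam ∂_2 u = ...`. -/
def MolStm : Prop :=
  ∀ (V E K : Set (ℝ × ℝ)) (u G lam : ℝ × ℝ → ℂ), IsOpen V → IsOpen (V \ E) →
    ContinuousOn u V → ContinuousOn G V → ContDiffOn ℝ 1 lam V →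
    (∀ x ∈ V ∩ E, u x = 0) →
    Null (Tw G (fun x => -u x) (fun x => u x * lam x)) (V \ E) →
    IsCompact K → K ⊆ V →
    ∃ B : ℝ, ∀ ε : ℝ, 0 < ε → ∃ v : ℝ × ℝ → ℂ, ContDiff ℝ ∞ v ∧
      (∀ x ∈ K, ‖v x - u x‖ ≤ ε) ∧
      (∀ x ∈ K, 2 * ε ≤ ‖u x‖ → ‖d1 v x - lam x * d2 v x‖ ≤ B)

/-- RA-EN: the energy inequality (null Lagrangian). -/
def EnStm : Prop :=
  ∀ (ζ : ℝ × ℝ → ℝ), ContDiff ℝ ∞ ζ → HasCompactSupport ζ →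
    ∀ c L B M : ℝ, 0 < c → ∃ C : ℝ, ∀ (lam v : ℝ × ℝ → ℂ) (ε : ℝ), 0 < ε →
      ((∀ x ∈ tsupport ζ, c ≤ (lam x).im) ∨ (∀ x ∈ tsupport ζ, (lam x).im ≤ -c)) →
      (∀ x ∈ tsupport ζ, ‖lam x‖ ≤ L) → ContinuousOn lam (tsupport ζ) →
      ContDiff ℝ ∞ v → (∀ x ∈ tsupport ζ, ‖v x‖ ≤ M) →
      (∀ x ∈ tsupport ζ, ε ≤ 2 * ‖v x‖ → ‖d1 v x - lam x * d2 v x‖ ≤ B) →
      ∫ x in {x | ε ≤ ‖v x‖}, ζ x ^ 2 * (‖d1 v x‖ ^ 2 + ‖d2 v x‖ ^ 2) ≤ C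

/-- RA-CON: conclusion of the energy method, one sign of `Im lam`. -/
def ConStm : Prop :=
  ∀ (V E : Set (ℝ × ℝ)) (u G lam : ℝ × ℝ → ℂ), IsOpen V → IsOpen (V \ E) →
    ContinuousOn u V → ContinuousOn G V → ContDiffOn ℝ 1 lam V →
    (∀ x ∈ V ∩ E, u x = 0 ∧ G x = 0) → (∀ x ∈ V, (lam x).im ≠ 0) →
    Null (Tw G (fun x => -u x) (fun x => u x * lam x)) (V \ E) →
    Null (Tw G (fun x => -u x) (fun x => u x * lam x)) V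

/-- RA-IBP (first part): the derivatives of a smooth function commute. -/
def CommStm : Prop :=
  ∀ (ψ : ℝ × ℝ → ℂ), ContDiff ℝ ∞ ψ → ∀ k : ℕ, D2^[k] (D1 ψ) = D1 (D2^[k] ψ)

/-- RA-IBP (second part): integration by parts against a `C^m` function. -/
def IbpStm : Prop :=
  ∀ (O : Set (ℝ × ℝ)) (m : ℕ) (f : ℝ × ℝ → ℂ), IsOpen O → ContDiffOn ℝ (m : ℕ∞) f O →
    ∀ j k : ℕ, j + k ≤ m → ∃ h : ℝ × ℝ → ℂ, ContinuousOn h O ∧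
      (∀ x ∈ O, Flat m f x → h x = 0) ∧
      ∀ ψ, Test O ψ → ∫ x, f x * Dm j k ψ x = ∫ x, h x * ψ x

/-- RA-REP: `Pf` is a first order distribution with continuous coefficients. -/
def RepStm : Prop :=
  ∀ (O : Set (ℝ × ℝ)) (p : ℕ) (a : ℕ → ℕ → ℝ × ℝ → ℂ) (f : ℝ × ℝ → ℂ), IsOpen O → 1 ≤ p →
    (∀ j k, j + k ≤ p → ContDiffOn ℝ ∞ (a j k) O) → ContDiffOn ℝ ((p - 1 : ℕ) : ℕ∞) f O →
    ∃ F0 F1 F2 : ℝ × ℝ → ℂ, ContinuousOn F0 O ∧ ContinuousOn F1 O ∧ ContinuousOn F2 O ∧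
      ∀ φ, Test O φ → Pf p a f φ = Tw F0 F1 F2 φ

/-- RA-FACT: where the principal symbol has a smooth root, `Pf` is `L u + g`. -/
def FactStm : Prop :=
  ∀ (V : Set (ℝ × ℝ)) (p : ℕ) (a : ℕ → ℕ → ℝ × ℝ → ℂ) (f lam : ℝ × ℝ → ℂ), IsOpen V →
    1 ≤ p → (∀ j k, j + k ≤ p → ContDiffOn ℝ ∞ (a j k) V) →
    ContDiffOn ℝ ((p - 1 : ℕ) : ℕ∞) f V → ContDiffOn ℝ ∞ lam V →
    (∀ x ∈ V, ∑ j ∈ Finset.range (p + 1), a j (p - j) x * lam x ^ j = 0) →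
    ∃ u G : ℝ × ℝ → ℂ, ContinuousOn u V ∧ ContinuousOn G V ∧
      (∀ x ∈ V, Flat (p - 1) f x → u x = 0 ∧ G x = 0) ∧
      ∀ φ, Test V φ → Pf p a f φ = Tw G (fun x => -u x) (fun x => u x * lam x) φ

/-- RA-ROOT: smooth root where the multiplicity of the root is minimal. -/
def RootStm : Prop :=
  ∀ (U : Set (ℝ × ℝ)) (p m : ℕ) (c : ℕ → ℝ × ℝ → ℂ), IsOpen U → 1 ≤ m →
    (∀ j ≤ p, ContDiffOn ℝ ∞ (c j) U) → (∀ x ∈ U, c p x ≠ 0) →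
    (∀ x ∈ U, ∀ t, (Px p c x).IsRoot t → ∀ i < m, ((Polynomial.derivative^[i]) (Px p c x)).IsRoot t) →
    ∀ (x1 : ℝ × ℝ) (t1 : ℂ), x1 ∈ U → (Px p c x1).IsRoot t1 →
      ¬ ((Polynomial.derivative^[m]) (Px p c x1)).IsRoot t1 →
      ∃ (V : Set (ℝ × ℝ)) (lam : ℝ × ℝ → ℂ), IsOpen V ∧ x1 ∈ V ∧ V ⊆ U ∧
        ContDiffOn ℝ ∞ lam V ∧ ∀ x ∈ V, (Px p c x).IsRoot (lam x)

/-- RA-RES: the exceptional set is contained in the zero set of a nonzero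
real analytic function. -/
def ResStm : Prop :=
  ∀ (U : Set (ℝ × ℝ)) (p m : ℕ) (c : ℕ → ℝ × ℝ → ℂ), IsOpen U →
    (∀ j ≤ p, AnalyticOnNhd ℝ (c j) U) → (∀ x ∈ U, c p x ≠ 0) →
    ∀ (x1 : ℝ × ℝ) (t1 : ℂ), x1 ∈ U → (Px p c x1).IsRoot t1 →
      ¬ ((Polynomial.derivative^[m]) (Px p c x1)).IsRoot t1 →
      ∃ ρ : ℝ × ℝ → ℂ, AnalyticOnNhd ℝ ρ U ∧ ρ x1 ≠ 0 ∧
        ∀ x ∈ U, (∀ t, (Px p c x).IsRoot t → ((Polynomial.derivative^[m]) (Px p c x)).IsRoot t) →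
          ρ x = 0

/-- RA-VAN: a set on which all derivatives of order `< n` vanish lies, near a
point where some derivative of order `n` does not vanish, on a `C^1` curve. -/
def VanStm : Prop :=
  ∀ (V S : Set (ℝ × ℝ)) (h : ℝ × ℝ → ℂ) (n : ℕ) (x0 : ℝ × ℝ), IsOpen V → x0 ∈ V → 1 ≤ n →
    ContDiffOn ℝ (n : ℕ∞) h V → (∀ x ∈ V ∩ S, ∀ i < n, iteratedFDeriv ℝ i h x = 0) →
    iteratedFDeriv ℝ n h x0 ≠ 0 →
    ∃ r : ℝ × ℝ → ℝ, ContDiffOn ℝ 1 r V ∧ (∀ x ∈ V ∩ S, r x = 0) ∧ fderiv ℝ r x0 ≠ 0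

/-- RA-ORD: order of vanishing of an analytic function. -/
def OrdStm : Prop :=
  ∀ (U : Set (ℝ × ℝ)) (ρ : ℝ × ℝ → ℂ) (x1 : ℝ × ℝ), IsOpen U → IsPreconnected U →
    AnalyticOnNhd ℝ ρ U → x1 ∈ U → ρ x1 ≠ 0 →
    ∀ x ∈ U, ∃ n, iteratedFDeriv ℝ n ρ x ≠ 0

/-- The result: the plane case. -/
def MainStm : Prop :=
  ∀ (X : Set (ℝ × ℝ)) (p : ℕ) (a : ℕ → ℕ → ℝ × ℝ → ℂ), IsOpen X → 1 ≤ p →
    (∀ j k, j + k ≤ p → AnalyticOnNhd ℝ (a j k) X) →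
    (∀ x ∈ X, ∀ z : ℝ × ℝ, z ≠ 0 →
      ∑ j ∈ Finset.range (p + 1), a j (p - j) x * (z.1 : ℂ) ^ j * (z.2 : ℂ) ^ (p - j) ≠ 0) →
    ∀ (O : Set (ℝ × ℝ)) (f : ℝ × ℝ → ℂ), IsOpen O → O ⊆ X →
      ContDiffOn ℝ ((p - 1 : ℕ) : ℕ∞) f O →
      Null (Pf p a f) (O \ {x | f x = 0}) → Null (Pf p a f) O

end Pool.Agent.Y313.RA
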